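import Pool.Agent.Y223.G.Stm5
import Pool.Agent.Y223.G.WBase

/-!
# The graded algebra of a chart is stable
-/

set_option autoImplicit false

namespace Pool.Agent.Y948.GG

open Pool.Agent.Y223.G

section

variable {k O K : Type} [CommRing k] [CommRing O] [Field K] [Algebra O K] [Algebra k K]

/-- An automorphism which maps the data `τ`, `𝔓` to `τ'`, `𝔓'` maps the graded algebras. -/
theorem tl_RR {τ τ' σ : K ≃ₐ[k] K} {p l : ℕ} {𝔓 𝔓' : Ideal O} {C : Subalgebra O K}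
    (hP : ∀ e ∈ 𝔓, ∃ e' ∈ 𝔓', σ (algebraMap O K e) = algebraMap O K e')
    (hC : ∀ c ∈ C, σ c ∈ C) (hτ : p = 1 ∨ ∀ x, σ (τ x) = τ' (σ x)) :
    ∀ f ∈ RR k τ p 𝔓 l C, tl σ f ∈ RR k τ' p 𝔓' l C := by
  have hle : RR k τ p 𝔓 l C ≤ (RR k τ' p 𝔓' l C).comap (tl σ).toAlgHom := by
    conv_lhs => unfold RR
    rw [Algebra.adjoin_le_iff]
    rintro f ((hf | ⟨e, he, rfl⟩) | ⟨a, c, hc, ha, rfl⟩)
    · rw [hf]
      show tl σ (hm (-1) 1) ∈ RR k τ' p 𝔓' l C
      rw [tl_hm, map_one]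
      exact RR_s
    · show tl σ (hm 1 (algebraMap O K e)) ∈ RR k τ' p 𝔓' l C
      obtain ⟨e', he', h⟩ := hP e he
      rw [tl_hm, h]
      exact RR_e he'
    · show tl σ (hm (wt l a) ((df τ)^[a] c)) ∈ RR k τ' p 𝔓' l C
      rw [tl_hm]
      have h1 : σ ((df τ)^[a] c) = (df τ')^[a] (σ c) := by
        rcases hτ with h | h
        · have ha0 : a = 0 := by omega
          rw [ha0, Function.iterate_zero_apply, Function.iterate_zero_apply]
        · have h2 : Function.Semiconj σ (df τ) (df τ') := by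
            intro x
            show σ (τ x - x) = τ' (σ x) - σ x
            rw [map_sub, h]
          exact (h2.iterate_right a) c
      rw [h1]
      exact RR_del ha (hC c hc)
  exact fun f hf => hle hf

end

/-- G5-RGST -/
theorem t_RGST : S_GENI → S_RGST := by
  intro hG k O K G _ _ _ _ _ _ _ _ _ _ ρ T N 𝔔 p l τ hL C hC g f hf
  unfold RG at hf ⊢
  obtain ⟨hf0, hf1⟩ := Algebra.mem_inf.1 hf
  have hcg : ∀ c ∈ C, ρ g c ∈ C := hC g
  refine Algebra.mem_inf.2 ⟨?_, ?_⟩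
  · refine tl_RR (fun e _ => ⟨T g e, Submodule.mem_top, hL.com g e⟩) hcg (Or.inl rfl) f hf0
  · rw [Algebra.mem_iInf] at hf1 ⊢
    intro j
    obtain ⟨i, hi, hpi, hli, hconj⟩ := hL.cj g⁻¹ j
    have hfi := hf1 i
    rw [hpi, hli] at hfi
    have hP : ∀ e ∈ 𝔔 i, ∃ e' ∈ 𝔔 j, ρ g (algebraMap O K e) = algebraMap O K e' := by
      intro e he
      refine ⟨T g e, (hi _).2 ?_, hL.com g e⟩
      have h1 : T g⁻¹ (T g e) = e := by
        rw [← AlgEquiv.mul_apply, ← map_mul, inv_mul_cancel, map_one, AlgEquiv.one_apply]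
      rwa [h1]
    by_cases hp : p j = 1
    · exact tl_RR hP hcg (Or.inl hp) f hfi
    · obtain ⟨-, n, hn⟩ := hconj.resolve_left hp
      have hW := ((hL.ty j).resolve_left fun h => hp h.1).1
      have h1 : g * τ i = τ j ^ n * g := by
        rw [hn, conj_pow]
        group
      have h2 : ∀ x, ρ g (ρ (τ i) x) = ρ (τ j ^ n) (ρ g x) := by
        intro x
        rw [← AlgEquiv.mul_apply, ← map_mul, h1, map_mul, AlgEquiv.mul_apply]
      have h3 := tl_RR (p := p j) (l := l j) hP hcg (Or.inr h2) f hfi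
      have h4 := hG k O K (p j) (ρ (τ j)) (T (τ j)) (𝔔 j) (l j) hW C (hC (τ j)) n
      rw [← map_pow] at h4
      exact h4 h3

end Pool.Agent.Y948.GG
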